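import Mathlib
import Pool.Agent.H93.SPJ.Defs

/-!
# HSH: hashing a family of integral lines into a small box
-/

set_option autoImplicit false

namespace Pool.SPJ

open Finset

/-- The hash function. -/
def ph (Q q lam x : ℤ) : ℤ := ((lam * x) % Q) * q / Q

theorem ph_box {Q q : ℤ} (hQ : 0 < Q) (hq : 0 < q) (lam x : ℤ) :
    0 ≤ ph Q q lam x ∧ ph Q q lam x < q := by
  have h1 := Int.emod_nonneg (lam * x) hQ.ne'
  have h2 := Int.emod_lt_of_pos (lam * x) hQ
  refine ⟨Int.ediv_nonneg (mul_nonneg h1 hq.le) hQ.le, Int.ediv_lt_of_lt_mul hQ ?_⟩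
  rw [mul_comm q Q]
  exact mul_lt_mul_of_pos_right h2 hq

theorem ph_bd {Q : ℤ} (hQ : 0 < Q) (q lam x : ℤ) :
    ph Q q lam x * Q ≤ (lam * x % Q) * q ∧ (lam * x % Q) * q < ph Q q lam x * Q + Q := by
  have h1 := Int.ediv_mul_le ((lam * x % Q) * q) hQ.ne'
  have h2 := Int.lt_ediv_add_one_mul_self ((lam * x % Q) * q) hQ
  refine ⟨h1, ?_⟩
  rw [add_mul, one_mul] at h2
  exact h2

/-- The slices of the hashed lines. -/
theorem ph_slice {Q q : ℤ} (hQ : 0 < Q) (lam : ℤ) {a b : ℤ} (hb : 0 < b) {N : ℤ}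
    (hN : b + |a| + 1 ≤ N) (u d : ℤ) :
    ∃ k ∈ Icc (-N) N, ∃ j ∈ Icc (-N) N, b * ph Q q lam u + a * ph Q q lam d =
      ((lam * (b * u + a * d) % Q + k * Q) * q) / Q + j := by
  obtain ⟨U, hU⟩ : ∃ U, U = lam * u % Q := ⟨_, rfl⟩
  obtain ⟨D, hD⟩ : ∃ D, D = lam * d % Q := ⟨_, rfl⟩
  obtain ⟨w, hw⟩ : ∃ w, w = b * U + a * D := ⟨_, rfl⟩
  have hU0 : 0 ≤ U := hU ▸ Int.emod_nonneg _ hQ.ne'
  have hU1 : U < Q := hU ▸ Int.emod_lt_of_pos _ hQ
  have hD0 : 0 ≤ D := hD ▸ Int.emod_nonneg _ hQ.ne'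
  have hD1 : D < Q := hD ▸ Int.emod_lt_of_pos _ hQ
  have ha0 : 0 ≤ |a| := abs_nonneg a
  -- the residue
  have hres : w % Q = lam * (b * u + a * d) % Q := by
    have h1 : lam * (b * u + a * d) = b * (lam * u) + a * (lam * d) := by ring
    rw [h1, hw, hU, hD]
    exact (Int.ModEq.add ((Int.mod_modEq (lam * u) Q).mul_left b)
      ((Int.mod_modEq (lam * d) Q).mul_left a))
  have hwk : w = lam * (b * u + a * d) % Q + w / Q * Q := by
    rw [← hres, mul_comm (w / Q) Q]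
    exact (Int.emod_add_mul_ediv w Q).symm
  have haD : |a * D| ≤ |a| * Q := by
    rw [abs_mul, abs_of_nonneg hD0]
    exact mul_le_mul_of_nonneg_left hD1.le ha0
  obtain ⟨haD1, haD2⟩ := abs_le.1 haD
  have hbU : b * U ≤ b * Q := mul_le_mul_of_nonneg_left hU1.le hb.le
  have hbU0 : 0 ≤ b * U := mul_nonneg hb.le hU0
  refine ⟨w / Q, mem_Icc.2 ⟨?_, ?_⟩, b * ph Q q lam u + a * ph Q q lam d - w * q / Q,
    mem_Icc.2 ?_, ?_⟩
  · refine Int.le_ediv_of_mul_le hQ ?_
    have h1 : (b + |a| + 1) * Q ≤ N * Q := mul_le_mul_of_nonneg_right hN hQ.le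
    have h2 : 0 ≤ b * Q := mul_nonneg hb.le hQ.le
    rw [hw]
    linarith
  · refine Int.ediv_le_of_le_mul hQ ?_
    have h1 : (b + |a| + 1) * Q ≤ N * Q := mul_le_mul_of_nonneg_right hN hQ.le
    rw [hw]
    linarith
  · obtain ⟨p1, p2⟩ := ph_bd hQ q lam u
    obtain ⟨p3, p4⟩ := ph_bd hQ q lam d
    rw [← hU] at p1 p2
    rw [← hD] at p3 p4
    have e1 := Int.ediv_mul_le (w * q) hQ.ne'
    have e2 := Int.lt_ediv_add_one_mul_self (w * q) hQ
    rw [add_mul, one_mul] at e2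
    have e3 : |a * (D * q - ph Q q lam d * Q)| ≤ |a| * Q := by
      rw [abs_mul]
      refine mul_le_mul_of_nonneg_left ?_ ha0
      rw [abs_le]
      constructor <;> linarith
    obtain ⟨e4, e5⟩ := abs_le.1 e3
    have e6 : 0 ≤ b * (U * q - ph Q q lam u * Q) := mul_nonneg hb.le (by linarith)
    have e7 : b * (U * q - ph Q q lam u * Q) ≤ b * Q :=
      mul_le_mul_of_nonneg_left (by linarith) hb.le
    have e8 : w * q = b * (U * q) + a * (D * q) := by rw [hw]; ring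
    have e9 : (b + |a| + 1) * Q ≤ N * Q := mul_le_mul_of_nonneg_right hN hQ.le
    constructor
    · by_contra hcon
      push Not at hcon
      have h1 : (b * ph Q q lam u + a * ph Q q lam d - w * q / Q) * Q ≤ (-N - 1) * Q :=
        mul_le_mul_of_nonneg_right (by linarith) hQ.le
      nlinarith
    · by_contra hcon
      push Not at hcon
      have h1 : (N + 1) * Q ≤ (b * ph Q q lam u + a * ph Q q lam d - w * q / Q) * Q :=
        mul_le_mul_of_nonneg_right (by linarith) hQ.le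
      nlinarith
  · rw [← hwk]
    ring

/-- The number of values of the slices of the hashed lines. -/
theorem ph_card {Q q : ℤ} (hQ : 0 < Q) (lam : ℤ) {a b : ℤ} (hb : 0 < b) {N : ℤ}
    (hN : b + |a| + 1 ≤ N) (B : Finset (ℤ × ℤ)) :
    ((B.image fun l => (ph Q q lam l.1, ph Q q lam l.2)).image
      fun l => b * l.1 + a * l.2).card ≤
    (Icc (-N) N).card * (Icc (-N) N).card * (B.image fun l => b * l.1 + a * l.2).card := by
  classical
  have hsub : (B.image fun l => (ph Q q lam l.1, ph Q q lam l.2)).image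
      (fun l => b * l.1 + a * l.2) ⊆
      ((B.image fun l => b * l.1 + a * l.2) ×ˢ (Icc (-N) N ×ˢ Icc (-N) N)).image
        (fun x => ((lam * x.1 % Q + x.2.1 * Q) * q) / Q + x.2.2) := by
    intro z hz
    rw [image_image] at hz
    obtain ⟨l, hl, rfl⟩ := mem_image.1 hz
    obtain ⟨k, hk, j, hj, h⟩ := ph_slice (q := q) hQ lam hb hN l.1 l.2
    refine mem_image.2 ⟨(b * l.1 + a * l.2, k, j), ?_, h.symm⟩
    exact mem_product.2 ⟨mem_image_of_mem _ hl, mem_product.2 ⟨hk, hj⟩⟩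
  refine (card_le_card hsub).trans (card_image_le.trans ?_)
  rw [card_product, card_product, mul_comm]

/-- The bad multipliers of a pair. -/
theorem ph_bad {Q : ℕ} (hQ : Q.Prime) {q : ℤ} (hq : 0 < q) {d d' : ℤ} (hd : d ≠ d')
    (hdQ : |d - d'| < Q) :
    q * (((Icc (1 : ℤ) (Q - 1)).filter fun lam => ph Q q lam d = ph Q q lam d').card : ℤ) ≤
      2 * ((Q : ℤ) - 1) := by
  classical
  have hQ0 : (0 : ℤ) < Q := by exact_mod_cast hQ.pos
  have hQ1 : (1 : ℤ) < Q := by exact_mod_cast hQ.one_lt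
  have hQp : Prime (Q : ℤ) := Nat.prime_iff_prime_int.1 hQ
  have hnd : ¬ (Q : ℤ) ∣ d - d' := by
    intro h
    have h1 := Int.eq_zero_of_abs_lt_dvd h hdQ
    exact hd (sub_eq_zero.1 h1)
  obtain ⟨m, hm⟩ : ∃ m : ℤ, m = (Q - 1) / q := ⟨_, rfl⟩
  have hm0 : 0 ≤ m := hm ▸ Int.ediv_nonneg (by linarith) hq.le
  have hqm : q * m ≤ Q - 1 := by
    rw [hm, mul_comm]
    exact Int.ediv_mul_le _ hq.ne'
  have hcong : ∀ lam : ℤ, (Q : ℤ) ∣ (lam * d % Q - lam * d' % Q) - lam * (d - d') := by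
    intro lam
    have h1 := Int.emod_add_mul_ediv (lam * d) Q
    have h2 := Int.emod_add_mul_ediv (lam * d') Q
    refine ⟨lam * d' / Q - lam * d / Q, ?_⟩
    rw [mul_sub]
    linarith [mul_sub lam d d']
  have hle : ((Icc (1 : ℤ) (Q - 1)).filter fun lam => ph Q q lam d = ph Q q lam d').card ≤
      ((Icc (-m) m).erase 0).card := by
    refine card_le_card_of_injOn (fun lam => lam * d % Q - lam * d' % Q) ?_ ?_
    · intro lam hlam
      obtain ⟨h1, h2⟩ := mem_filter.1 (mem_coe.1 hlam)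
      obtain ⟨h3, h4⟩ := mem_Icc.1 h1
      obtain ⟨p1, p2⟩ := ph_bd hQ0 q lam d
      obtain ⟨p3, p4⟩ := ph_bd hQ0 q lam d'
      rw [h2] at p1 p2
      have h5 : |lam * d % Q - lam * d' % Q| ≤ m := by
        rw [hm]
        refine Int.le_ediv_of_mul_le hq ?_
        have h6 : |lam * d % Q - lam * d' % Q| * q = |(lam * d % Q - lam * d' % Q) * q| := by
          rw [abs_mul, abs_of_pos hq]
        have h7 : |(lam * d % Q - lam * d' % Q) * q| < Q := by
          rw [abs_lt]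
          constructor <;> linarith [sub_mul (lam * d % Q) (lam * d' % Q) q]
        rw [h6]
        omega
      refine mem_coe.2 (mem_erase.2 ⟨fun h0 => ?_, mem_Icc.2 (abs_le.1 h5)⟩)
      have h7 := hcong lam
      have h0' : lam * d % Q - lam * d' % Q = 0 := h0
      rw [h0', zero_sub, dvd_neg] at h7
      rcases hQp.dvd_or_dvd h7 with h8 | h8
      · have h9 := Int.le_of_dvd (by linarith) h8
        linarith
      · exact hnd h8
    · intro lam hlam lam' hlam' he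
      obtain ⟨h1, -⟩ := mem_filter.1 (mem_coe.1 hlam)
      obtain ⟨h1', -⟩ := mem_filter.1 (mem_coe.1 hlam')
      obtain ⟨h3, h4⟩ := mem_Icc.1 h1
      obtain ⟨h3', h4'⟩ := mem_Icc.1 h1'
      have he' : lam * d % Q - lam * d' % Q = lam' * d % Q - lam' * d' % Q := he
      have h5 : (Q : ℤ) ∣ (lam - lam') * (d - d') := by
        have h6 := dvd_sub (hcong lam') (hcong lam)
        rw [he'] at h6
        have h7 : lam' * d % Q - lam' * d' % Q - lam' * (d - d') -
          (lam' * d % Q - lam' * d' % Q - lam * (d - d')) = (lam - lam') * (d - d') := by ring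
        rwa [h7] at h6
      have h6 := (hQp.dvd_or_dvd h5).resolve_right hnd
      have h7 := Int.eq_zero_of_abs_lt_dvd h6 (by rw [abs_lt]; constructor <;> linarith)
      exact sub_eq_zero.1 h7
  have hcard : (((Icc (-m) m).erase 0).card : ℤ) = 2 * m := by
    rw [card_erase_of_mem (mem_Icc.2 ⟨by linarith, hm0⟩), Int.card_Icc]
    omega
  have h1 : (((Icc (1 : ℤ) (Q - 1)).filter fun lam => ph Q q lam d = ph Q q lam d').card : ℤ) ≤
      2 * m := by
    rw [← hcard]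
    exact_mod_cast hle
  have h2 := mul_le_mul_of_nonneg_left h1 hq.le
  linarith

/-- A good multiplier. -/
theorem ph_good {Q : ℕ} (hQ : Q.Prime) (D : Finset ℤ) (hD : D.Nonempty)
    (hdQ : ∀ d ∈ D, ∀ d' ∈ D, |d - d'| < Q) :
    ∃ lam : ℤ, D.card ≤ 2 * (D.image (ph Q (8 * (D.card : ℤ)) lam)).card := by
  classical
  have hQ1 : (1 : ℤ) < Q := by exact_mod_cast hQ.one_lt
  have hn : 0 < D.card := card_pos.2 hD
  have hn' : (0 : ℤ) < D.card := by exact_mod_cast hn
  have hq : (0 : ℤ) < 8 * (D.card : ℤ) := by linarith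
  by_contra hcon
  push Not at hcon
  -- bad ordered pairs
  have hbad : ∀ lam : ℤ, (D.card : ℤ) + 1 ≤ 2 * ((D.offDiag.filter fun p =>
      ph Q (8 * (D.card : ℤ)) lam p.1 = ph Q (8 * (D.card : ℤ)) lam p.2).card : ℤ) := by
    intro lam
    have h1 := hcon lam
    -- choose a section of the image
    have h2 : (D.card : ℤ) - (D.image (ph Q (8 * (D.card : ℤ)) lam)).card ≤
        ((D.offDiag.filter fun p =>
          ph Q (8 * (D.card : ℤ)) lam p.1 = ph Q (8 * (D.card : ℤ)) lam p.2).card : ℤ) := by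
      have hs : ∀ y : ℤ, ∃ x : ℤ, y ∈ D.image (ph Q (8 * (D.card : ℤ)) lam) →
          x ∈ D ∧ ph Q (8 * (D.card : ℤ)) lam x = y := by
        intro y
        by_cases hy : y ∈ D.image (ph Q (8 * (D.card : ℤ)) lam)
        · obtain ⟨x, hx, hxy⟩ := mem_image.1 hy
          exact ⟨x, fun _ => ⟨hx, hxy⟩⟩
        · exact ⟨0, fun h => absurd h hy⟩
      choose s hs using hs
      have h3 : (D \ (D.image (ph Q (8 * (D.card : ℤ)) lam)).image s).card ≤
          (D.offDiag.filter fun p =>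
            ph Q (8 * (D.card : ℤ)) lam p.1 = ph Q (8 * (D.card : ℤ)) lam p.2).card := by
        refine card_le_card_of_injOn
          (fun x => (x, s (ph Q (8 * (D.card : ℤ)) lam x))) ?_ ?_
        · intro x hx
          obtain ⟨h4, h5⟩ := mem_sdiff.1 (mem_coe.1 hx)
          obtain ⟨h6, h7⟩ := hs _ (mem_image_of_mem _ h4)
          refine mem_coe.2 (mem_filter.2 ⟨mem_offDiag.2 ⟨h4, h6, fun h8 => h5 ?_⟩, h7.symm⟩)
          exact mem_image.2 ⟨_, mem_image_of_mem _ h4, h8.symm⟩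
        · intro x _ x' _ h
          exact congrArg Prod.fst h
      have h4 : ((D.image (ph Q (8 * (D.card : ℤ)) lam)).image s).card ≤
          (D.image (ph Q (8 * (D.card : ℤ)) lam)).card := card_image_le
      have h5 := le_card_sdiff ((D.image (ph Q (8 * (D.card : ℤ)) lam)).image s) D
      omega
    have h3 : (2 * (D.image (ph Q (8 * (D.card : ℤ)) lam)).card : ℤ) < D.card := by
      exact_mod_cast h1
    linarith
  -- double counting
  have hsum : ∑ lam ∈ Icc (1 : ℤ) (Q - 1), ((D.offDiag.filter fun p =>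
      ph Q (8 * (D.card : ℤ)) lam p.1 = ph Q (8 * (D.card : ℤ)) lam p.2).card : ℤ) =
      ∑ p ∈ D.offDiag, (((Icc (1 : ℤ) (Q - 1)).filter fun lam =>
        ph Q (8 * (D.card : ℤ)) lam p.1 = ph Q (8 * (D.card : ℤ)) lam p.2).card : ℤ) := by
    have h := sum_card_bipartiteAbove_eq_sum_card_bipartiteBelow
      (s := Icc (1 : ℤ) (Q - 1)) (t := D.offDiag)
      (r := fun lam p => ph Q (8 * (D.card : ℤ)) lam p.1 = ph Q (8 * (D.card : ℤ)) lam p.2)
    unfold bipartiteAbove bipartiteBelow at h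
    exact_mod_cast h
  have h1 : ∑ lam ∈ Icc (1 : ℤ) (Q - 1), ((D.card : ℤ) + 1) ≤
      ∑ lam ∈ Icc (1 : ℤ) (Q - 1), 2 * ((D.offDiag.filter fun p =>
        ph Q (8 * (D.card : ℤ)) lam p.1 = ph Q (8 * (D.card : ℤ)) lam p.2).card : ℤ) :=
    sum_le_sum fun lam _ => hbad lam
  have h2 : ∑ p ∈ D.offDiag, 8 * (D.card : ℤ) * (((Icc (1 : ℤ) (Q - 1)).filter fun lam =>
      ph Q (8 * (D.card : ℤ)) lam p.1 = ph Q (8 * (D.card : ℤ)) lam p.2).card : ℤ) ≤
      ∑ p ∈ D.offDiag, 2 * ((Q : ℤ) - 1) := by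
    refine sum_le_sum fun p hp => ?_
    obtain ⟨h3, h4, h5⟩ := mem_offDiag.1 hp
    exact ph_bad hQ hq h5 (hdQ _ h3 _ h4)
  rw [← mul_sum, ← mul_sum] at h2
  rw [← mul_sum, hsum] at h1
  simp only [sum_const, nsmul_eq_mul, Int.card_Icc, offDiag_card] at h1 h2
  have h6 : (((Q : ℤ) - 1 + 1 - 1).toNat : ℤ) = Q - 1 := by
    rw [Int.toNat_of_nonneg (by linarith)]
    ring
  rw [h6] at h1
  have h7 : ((D.card * D.card - D.card : ℕ) : ℤ) = D.card * D.card - D.card := by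
    rw [Nat.cast_sub (Nat.le_mul_of_pos_left _ hn)]
    push_cast
    ring
  rw [h7] at h2
  nlinarith

theorem ptz_card (t : ℚ) (B : Finset (ℤ × ℤ)) :
    (B.image (ptz t)).card = (B.image fun l => (t.den : ℤ) * l.1 + t.num * l.2).card := by
  classical
  have hden : (t.den : ℚ) ≠ 0 := by exact_mod_cast t.den_nz
  have h1 : ptz t = (fun z : ℤ => (z : ℚ) / t.den) ∘
      (fun l : ℤ × ℤ => (t.den : ℤ) * l.1 + t.num * l.2) := by
    funext l
    show (l.1 : ℚ) + t * l.2 = (((t.den : ℤ) * l.1 + t.num * l.2 : ℤ) : ℚ) / t.den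
    have h2 : t = (t.num : ℚ) / t.den := (Rat.num_div_den t).symm
    push_cast
    rw [eq_div_iff hden, add_mul]
    have h3 : t * l.2 * t.den = t.num * l.2 := by
      have h4 : t * t.den = t.num := Rat.mul_den_eq_num t
      rw [← h4]
      ring
    rw [h3]
    ring
  rw [h1, ← image_image, card_image_of_injective]
  intro z z' h
  have h2 : (z : ℚ) / t.den = z' / t.den := h
  rw [div_left_inj' hden] at h2
  exact_mod_cast h2

theorem t_hsh : HshStmt := by
  classical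
  intro T
  refine ⟨∑ t ∈ T, (Icc (-((t.den : ℤ) + |t.num| + 1)) ((t.den : ℤ) + |t.num| + 1)).card *
    (Icc (-((t.den : ℤ) + |t.num| + 1)) ((t.den : ℤ) + |t.num| + 1)).card, fun B hB => ?_⟩
  obtain ⟨D, hD⟩ : ∃ D, D = B.image Prod.snd := ⟨_, rfl⟩
  have hDne : D.Nonempty := by rw [hD]; exact hB.image _
  have hn : 0 < D.card := card_pos.2 hDne
  have hq : (0 : ℤ) < 8 * (D.card : ℤ) := by
    have : (0 : ℤ) < D.card := by exact_mod_cast hn
    linarith
  obtain ⟨Q, hQ1, hQ⟩ := Nat.exists_infinite_primes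
    ((∑ d ∈ D, d.natAbs) + (∑ d ∈ D, d.natAbs) + 1)
  have hQ0 : (0 : ℤ) < Q := by exact_mod_cast hQ.pos
  have hdQ : ∀ d ∈ D, ∀ d' ∈ D, |d - d'| < Q := by
    intro d hd d' hd'
    have h1 : d.natAbs ≤ ∑ d ∈ D, d.natAbs := single_le_sum (fun _ _ => Nat.zero_le _) hd
    have h2 : d'.natAbs ≤ ∑ d ∈ D, d.natAbs := single_le_sum (fun _ _ => Nat.zero_le _) hd'
    rw [abs_lt]
    omega
  obtain ⟨lam, hlam⟩ := ph_good hQ D hDne hdQ
  refine ⟨B.image fun l => (ph Q (8 * (D.card : ℤ)) lam l.1, ph Q (8 * (D.card : ℤ)) lam l.2),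
    ?_, ?_, ?_⟩
  · intro l hl
    obtain ⟨l', -, rfl⟩ := mem_image.1 hl
    rw [← hD]
    have h1 := ph_box hQ0 hq lam l'.1
    have h2 := ph_box hQ0 hq lam l'.2
    exact ⟨h1.1, h1.2, h2.1, h2.2⟩
  · rw [image_image, ← hD]
    have h1 : B.image (Prod.snd ∘ fun l : ℤ × ℤ =>
        (ph Q (8 * (D.card : ℤ)) lam l.1, ph Q (8 * (D.card : ℤ)) lam l.2)) =
        D.image (ph Q (8 * (D.card : ℤ)) lam) := by
      rw [hD, image_image]
      rfl
    rw [h1]
    exact hlam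
  · intro t ht
    rw [ptz_card, ptz_card]
    refine (ph_card (q := 8 * (D.card : ℤ)) hQ0 lam (by exact_mod_cast t.den_pos)
      (N := (t.den : ℤ) + |t.num| + 1) le_rfl B).trans ?_
    refine Nat.mul_le_mul_right _ ?_
    exact single_le_sum (f := fun t : ℚ =>
      (Icc (-((t.den : ℤ) + |t.num| + 1)) ((t.den : ℤ) + |t.num| + 1)).card *
      (Icc (-((t.den : ℤ) + |t.num| + 1)) ((t.den : ℤ) + |t.num| + 1)).card)
      (fun _ _ => Nat.zero_le _) ht

end Pool.SPJ
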